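import Pool.Agent.X258.LLV.TreeCells

/-!
# MP_b633b3_co: finiteness of the survival number is not a quasi-isometry invariant

Let `T₃` be the 3-regular tree and `ℤ` the two-way infinite path. The strong product `T₃ ⊠ ℤ` and the
Cartesian product `T₃ □ ℤ` have the same vertices, and the identity is a quasi-isometry. The survival
number of the strong product is at most `6`, the one of the Cartesian product is infinite.

The tree is modelled with a fixed end: a vertex is a level `p` together with a finite set of
integers below `p`; its parent has level `p - 1` and forgets whether `p - 1` is in the set.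
-/

namespace Pool.Agent.Results.MP_b633b3_co.TreeTimesLine

open Finset Pool.Agent.X258.LLV

variable {V W : Type*}

/-- The Voronoi cell `C(v,T)`. -/
def cell (G : SimpleGraph V) (T : Finset V) (v : V) : Set V :=
  {u | ∀ w ∈ T, G.dist u v ≤ G.dist u w}

open Classical in
/-- `I(T)`, the number of members of `T` with an infinite Voronoi cell. -/
noncomputable def infCount (G : SimpleGraph V) (T : Finset V) : ℕ :=
  (T.filter fun v => (cell G T v).Infinite).card

/-- `𝒯(d,n)`: the finite sets with at least `n` elements whose distinct elements are pairwise at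
distance greater than `d`. -/
def Sep (G : SimpleGraph V) (d n : ℕ) : Set (Finset V) :=
  {T | n ≤ T.card ∧ ∀ v ∈ T, ∀ w ∈ T, v ≠ w → d < G.dist v w}

/-- The survival number `s(G)`. -/
noncomputable def survival (G : SimpleGraph V) : ℕ∞ :=
  ⨆ n ∈ {n : ℕ | 1 ≤ n ∧ ∃ d : ℕ, ∀ T ∈ Sep G d n, n ≤ infCount G T}, (n : ℕ∞)

/-- `G` is an infinite, connected, locally finite, vertex-transitive graph. -/
def Admissible (G : SimpleGraph V) : Prop :=
  Infinite V ∧ G.Connected ∧ (∀ v, (G.neighborSet v).Finite) ∧ ∀ u v, ∃ φ : G ≃g G, φ u = v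

/-- `G` and `H` are quasi-isometric. -/
def QuasiIsometric (G : SimpleGraph V) (H : SimpleGraph W) : Prop :=
  ∃ (f : V → W) (l c : ℝ), 1 ≤ l ∧ 0 ≤ c ∧
    (∀ x y, l⁻¹ * G.dist x y - c ≤ H.dist (f x) (f y) ∧
      (H.dist (f x) (f y) : ℝ) ≤ l * G.dist x y + c) ∧
    ∀ w, ∃ v, (H.dist (f v) w : ℝ) ≤ c

theorem infinite_vp : Infinite VP := by
  have : Function.Injective (fun q : ℤ => ((root, q) : VP)) := by
    intro a b h
    simpa using h
  exact Infinite.of_injective _ this

theorem admissible_box : Admissible Box := by
  have : Nonempty VP := ⟨(root, 0)⟩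
  refine ⟨infinite_vp, ⟨box_metric.1⟩, box_locallyFinite, transitive_of Box fun c => ?_⟩
  obtain ⟨e, h1, h2, _⟩ := prod_auto c
  exact ⟨e, h1, h2⟩

theorem admissible_strong : Admissible Strong := by
  have : Nonempty VP := ⟨(root, 0)⟩
  refine ⟨infinite_vp, ⟨strong_metric.1⟩, strong_locallyFinite, transitive_of Strong fun c => ?_⟩
  obtain ⟨e, h1, _, h2⟩ := prod_auto c
  exact ⟨e, h1, h2⟩

theorem quasiIsometric : QuasiIsometric Strong Box := by
  refine ⟨id, 2, 0, by norm_num, le_rfl, fun x y => ?_, fun w => ⟨w, by simp⟩⟩
  have h1 := strong_metric.2 x y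
  have h2 := box_metric.2 x y
  have h3 := DT_nonneg x.1 y.1
  have h4 := abs_nonneg (x.2 - y.2)
  simp only [DS, DB] at h1 h2
  have h5 : Strong.dist x y ≤ Box.dist x y := by omega
  have h6 : Box.dist x y ≤ 2 * Strong.dist x y := by omega
  have h5' : (Strong.dist x y : ℝ) ≤ Box.dist x y := by exact_mod_cast h5
  have h6' : (Box.dist x y : ℝ) ≤ 2 * Strong.dist x y := by exact_mod_cast h6
  have h7 : (0 : ℝ) ≤ Strong.dist x y := Nat.cast_nonneg _
  simp only [id]
  constructor
  · linarith
  · linarith

theorem Q_inj (N : ℤ) (hN : 1 ≤ N) : Function.Injective (Q N) := by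
  intro c c' h
  by_contra hne
  have := Q_sep N c c' hN hne
  rw [h] at this
  simp [DS, DT_self] at this
  omega

theorem survival_strong : survival Strong ≤ 6 := by
  classical
  refine iSup₂_le ?_
  rintro n ⟨_, d, hd⟩
  by_contra hcon
  have hn : 7 ≤ n := by
    by_contra h
    apply hcon
    have : n ≤ 6 := by omega
    exact_mod_cast this
  set N : ℤ := (d : ℤ) + 1 with hN
  have hN1 : 1 ≤ N := by omega
  set T : Finset VP := (Finset.Icc (-3 : ℤ) ((n : ℤ) - 4)).image (Q N) with hT
  have hcard : T.card = n := by
    rw [hT, card_image_of_injective _ (Q_inj N hN1), Int.card_Icc]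
    omega
  have hsep : T ∈ Sep Strong d n := by
    refine ⟨hcard.ge, ?_⟩
    intro v hv w hw hvw
    rw [hT, mem_image] at hv hw
    obtain ⟨c, _, rfl⟩ := hv
    obtain ⟨c', _, rfl⟩ := hw
    have hcc : c ≠ c' := fun h => hvw (by rw [h])
    have h1 := Q_sep N c c' hN1 hcc
    rw [← strong_metric.2] at h1
    omega
  have hP : ∀ c ∈ Finset.Icc (-3 : ℤ) 3, Q N c ∈ T := by
    intro c hc
    rw [hT, mem_image]
    rw [mem_Icc] at hc
    exact ⟨c, by rw [mem_Icc]; omega, rfl⟩
  have hfin : (cell Strong T (Q N 0)).Finite := by
    apply (ball_finite (3 * N)).subset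
    intro u hu
    apply blocked_strong N hN1 u
    intro c hc
    have := hu _ (hP c hc)
    rw [← strong_metric.2, ← strong_metric.2]
    exact_mod_cast this
  have h0 : Q N 0 ∈ T := hP 0 (by simp)
  have hle := hd T hsep
  have hlt : infCount Strong T < T.card := by
    unfold infCount
    apply card_lt_card
    rw [filter_ssubset]
    exact ⟨Q N 0, h0, fun h => h hfin⟩
  omega

theorem survival_box : survival Box = ⊤ := by
  classical
  rw [ENat.eq_top_iff_forall_ge]
  intro m
  have hmem : (m + 1) ∈ {n : ℕ | 1 ≤ n ∧ ∃ d : ℕ, ∀ T ∈ Sep Box d n, n ≤ infCount Box T} := by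
    refine ⟨by omega, 2 * m, ?_⟩
    rintro T ⟨hT1, hT2⟩
    by_contra hcon
    set E : Finset VP := T.filter fun v => (cell Box T v).Infinite with hE
    have hEc : infCount Box T = E.card := by
      unfold infCount
      rw [hE]
    have hEm : E.card ≤ m := by omega
    obtain ⟨v, hv, hvE⟩ : ∃ v ∈ T, v ∉ E := by
      by_contra h
      push Not at h
      have := card_le_card (show T ⊆ E from h)
      omega
    have hfin := fin_of_cells Box.dist T E (by
      intro w hw hwE
      by_contra h
      exact hwE (mem_filter.2 ⟨hw, h⟩)) v hv hvE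
    have hinf := ray m E hEm v (by
      intro e he
      have hne : v ≠ e := by rintro rfl; exact hvE he
      have := hT2 v hv e (mem_filter.1 he).1 hne
      rw [← box_metric.2]
      exact_mod_cast this)
    apply hinf
    apply hfin.subset
    intro u hu e he
    have := hu e he
    rw [← box_metric.2, ← box_metric.2] at this
    exact_mod_cast this
  calc (m : ℕ∞) ≤ ((m + 1 : ℕ) : ℕ∞) := by exact_mod_cast Nat.le_succ m
    _ ≤ survival Box := le_iSup₂_of_le (m + 1) hmem le_rfl

/-- The strong product and the Cartesian product of the 3-regular tree with the integer line are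
quasi-isometric infinite connected locally finite vertex-transitive graphs; the first has survival
number at most `6`, the second has infinite survival number. So finiteness of the survival number is
not invariant under quasi-isometries. -/
theorem result :
    (Admissible Strong ∧ Admissible Box ∧ QuasiIsometric Strong Box ∧
      survival Strong ≤ 6 ∧ survival Box = ⊤) ∧
    ¬ ∀ (V W : Type) (G : SimpleGraph V) (H : SimpleGraph W), Admissible G → Admissible H →
      QuasiIsometric G H → (survival G < ⊤ ↔ survival H < ⊤) := by
  refine ⟨⟨admissible_strong, admissible_box, quasiIsometric, survival_strong, survival_box⟩,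
    fun h => ?_⟩
  have h1 := (h VP VP Strong Box admissible_strong admissible_box quasiIsometric).1
    (lt_of_le_of_lt survival_strong (by decide))
  rw [survival_box] at h1
  exact lt_irrefl _ h1

end Pool.Agent.Results.MP_b633b3_co.TreeTimesLine
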